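import Mathlib
import Pool.Agent.Run7.h440.ThmB

set_option autoImplicit false

/-! # Primitive roots within `p ^ θ` steps, `θ` arbitrarily small, with `O(log log x)` exceptions -/

namespace Pool.Agent.Results.MP_18a8a6_lc.LogLogExceptions

open Finset Turing

/-- `F` is computable within `K * 2 ^ (θ n)` steps: some function on bit strings computed by a
deterministic Turing machine (Mathlib's `TM2ComputableInTime`) which makes at most `K * 2 ^ (θ n)`
steps on the inputs of length `n` sends the binary digits of `p` to the code of the list `F p`. -/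
def ExpTimeList (θ : ℝ) (F : ℕ → List ℕ) : Prop :=
  ∃ (f : List Bool → List Bool)
    (M : TM2ComputableInTime (id : List Bool → List Bool) (id : List Bool → List Bool) f) (K : ℝ),
    (∀ n : ℕ, (M.time n : ℝ) ≤ K * 2 ^ (θ * n)) ∧ ∀ p : ℕ, f (Nat.bits p) = NPC.bits (F p)

/-- `g` is a primitive root modulo `p` -/
def IsPrimRoot (p g : ℕ) : Prop := orderOf (g : ZMod p) = p - 1

open Classical in
/-- `p` is an exceptional prime: more than a fraction `n ^ (-B)` of the entries of the list `s`,
`n = size p` the number of binary digits of `p`, are not primitive roots modulo `p` -/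
def Exceptional (B p : ℕ) (s : List ℕ) : Prop :=
  p.Prime ∧ s.length < p.size ^ B * #{i ∈ range s.length | ¬ IsPrimRoot p (s.getD i 0)}

open Classical in
/-- For every `θ > 0` and every `B` there are `C` and a list `F p` of `n ^ C` numbers, `n = size p`,
computable within `K * 2 ^ (θ n)` steps, such that for every `x` there are at most `K` exceptional
primes `p` with `x < p ^ 2`, `p ≤ x`, and so at most `K log log x` exceptional primes `p ≤ x`, if
`x ≥ 16`: for all other primes all but a fraction `n ^ (-B)` of the entries of `F p` are primitive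
roots modulo `p`. -/
theorem result (θ : ℝ) (hθ : 0 < θ) (B : ℕ) :
    ∃ (C : ℕ) (F : ℕ → List ℕ), ExpTimeList θ F ∧ (∀ p : ℕ, (F p).length = p.size ^ C) ∧
      ∃ K : ℕ, ∀ x : ℕ, #{p ∈ range (x + 1) | x < p ^ 2 ∧ Exceptional B p (F p)} ≤ K ∧
        (16 ≤ x → (#{p ∈ range (x + 1) | Exceptional B p (F p)} : ℝ) ≤
          K * Real.log (Real.log x)) := by
  obtain ⟨C, F, hF, hlen, K, hK⟩ := Run7.h440.theoremB hθ B
  have hK' : ∀ x : ℕ, #{p ∈ range (x + 1) | x < p ^ 2 ∧ Exceptional B p (F p)} ≤ K := by
    intro x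
    refine le_trans (le_of_eq ?_) (hK x)
    congr 1
    refine filter_congr fun p _ => ?_
    simp only [Exceptional, IsPrimRoot, R562.PR.IsPrimRoot, not_le] <;> rfl
  refine ⟨C, F, hF, hlen, 4 * K, fun x => ⟨(hK' x).trans (by omega), fun hx => ?_⟩⟩
  have h1 := Run7.h440.total_count (fun p => Exceptional B p (F p)) (fun p hp => hp.1.two_le) K
    hK' x
  have h2 := Run7.h440.loglog_le hx
  calc (#{p ∈ range (x + 1) | Exceptional B p (F p)} : ℝ)
      ≤ ((K * (Nat.log 2 (Nat.log 2 x) + 1) : ℕ) : ℝ) := by exact_mod_cast h1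
    _ = K * ((Nat.log 2 (Nat.log 2 x) + 1 : ℕ) : ℝ) := by push_cast; ring
    _ ≤ K * (4 * Real.log (Real.log x)) := mul_le_mul_of_nonneg_left h2 (Nat.cast_nonneg _)
    _ = ((4 * K : ℕ) : ℝ) * Real.log (Real.log x) := by push_cast; ring

end Pool.Agent.Results.MP_18a8a6_lc.LogLogExceptions
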