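import Mathlib
import Pool.Agent.Run7.h440.ThmA
import Pool.Agent.Helper923.HRhoG

set_option autoImplicit false

/-! # Elements of small index modulo every prime, by a deterministic search within `p ^ θ` steps -/

namespace Pool.Agent.Results.MP_18a8a6_lc.SearchBelowBurgess

open Finset Turing

/-- `ρ` is Dickman's function: continuous, `ρ v = 1` for `v ≤ 1`, and
`ρ v = 1 - ∫_1^v ρ(s - 1) / s ds` for `v ≥ 1` (that is `v ρ'(v) = -ρ(v - 1)` for `v > 1`). -/
def IsDickman (ρ : ℝ → ℝ) : Prop :=
  Continuous ρ ∧ (∀ v : ℝ, v ≤ 1 → ρ v = 1) ∧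
    ∀ v : ℝ, 1 ≤ v → ρ v = 1 - ∫ s in (1 : ℝ)..v, ρ (s - 1) / s

/-- `F` is computable within `K * 2 ^ (θ n)` steps: some function on bit strings computed by a
deterministic Turing machine (Mathlib's `TM2ComputableInTime`) which makes at most `K * 2 ^ (θ n)`
steps on the inputs of length `n` sends the binary digits of `p` to the code of the list `F p`. -/
def ExpTimeList (θ : ℝ) (F : ℕ → List ℕ) : Prop :=
  ∃ (f : List Bool → List Bool)
    (M : TM2ComputableInTime (id : List Bool → List Bool) (id : List Bool → List Bool) f) (K : ℝ),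
    (∀ n : ℕ, (M.time n : ℝ) ≤ K * 2 ^ (θ * n)) ∧ ∀ p : ℕ, f (Nat.bits p) = NPC.bits (F p)

/-- the residue class of `g` has index `d` modulo `p`, that is, order `(p - 1) / d`; for `d = 1` the
number `g` is a primitive root modulo `p` -/
def HasIndex (p g d : ℕ) : Prop := orderOf (g : ZMod p) * d = p - 1

open Classical in
/-- For every `θ > 0` and every `B` there are `C` and a list `F p` of `n ^ C` numbers, `n = size p`
the number of binary digits of `p`, computable within `K * 2 ^ (θ n)` steps, such that for every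
sufficiently large prime `p` there is `d ≤ 1 / ρ(1 / (4 θ))` with: all but a fraction `n ^ (-B)` of
the entries of `F p` have index exactly `d` modulo `p`. Here `d` is odd unless `p = 1` modulo `8`,
and `d = 1` (the entries are primitive roots) if `θ > 1 / (4 √e)`, or if `θ > 1 / 8`, `p ≠ 1` modulo
`8` and `p ≠ 1` modulo `3`. -/
theorem result : ∃ ρ : ℝ → ℝ, IsDickman ρ ∧ ∀ (θ : ℝ), 0 < θ → ∀ B : ℕ,
    ∃ (C : ℕ) (F : ℕ → List ℕ), ExpTimeList θ F ∧ (∀ p : ℕ, (F p).length = p.size ^ C) ∧
      ∃ p₀ : ℕ, ∀ p : ℕ, p₀ ≤ p → p.Prime → ∃ d : ℕ,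
        (d : ℝ) * ρ (1 / (4 * θ)) ≤ 1 ∧ d ∣ p - 1 ∧ (p % 8 ≠ 1 → Odd d) ∧
        (1 / (4 * Real.exp (1 / 2)) < θ → d = 1) ∧
        (1 / 8 < θ → p % 8 ≠ 1 → p % 3 ≠ 1 → d = 1) ∧
        p.size ^ B * #{i ∈ range (F p).length | ¬ HasIndex p ((F p).getD i 0) d} ≤
          (F p).length := by
  refine ⟨Helper923.HRho.rho, ⟨Helper923.HRho.rho_cont, fun v hv => Helper923.HRho.rho_one hv,
    fun v hv => ?_⟩, fun θ hθ B => ?_⟩
  · rw [Helper923.HRho.rho_int v, max_eq_left hv]
    congr 1
    apply intervalIntegral.integral_congr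
    intro s hs
    rw [Set.uIcc_of_le hv] at hs
    have : max s 1 = s := max_eq_left hs.1
    simp only [this]
  · obtain ⟨C, F, hF, hlen, p₀, hp₀⟩ := Run7.h440.theoremA hθ B
    refine ⟨C, F, hF, hlen, max p₀ 3, fun p hp hpp => ?_⟩
    obtain ⟨d, h1, h2, h3, h4⟩ := hp₀ p (le_of_max_le_left hp) hpp
    have hp3 : 3 ≤ p := le_of_max_le_right hp
    have hd0 : d ≠ 0 := by
      rintro rfl
      have := Nat.eq_zero_of_zero_dvd h2
      omega
    have h4θ : (0 : ℝ) < 4 * θ := by linarith
    refine ⟨d, h1, h2, h3, fun hθ1 => ?_, fun hθ1 h8 h9 => ?_, by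
      simp only [HasIndex]
      convert h4⟩
    · have hr : 1 / 2 < Helper923.HRho.rho (1 / (4 * θ)) := by
        rcases le_total (1 / (4 * θ)) 1 with h | h
        · rw [Helper923.HRho.rho_one h]
          norm_num
        · have h5 : 1 / (4 * θ) < Real.exp (1 / 2) := by
            rw [div_lt_iff₀ (by positivity)] at hθ1
            rw [div_lt_iff₀ h4θ]
            linarith
          have h6 : Real.exp (1 / 2) ≤ 2 := by
            have h7 : Real.exp (1 / 2) ^ 2 = Real.exp 1 := by
              rw [← Real.exp_nat_mul]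
              norm_num
            have h8 := Real.exp_one_lt_d9
            nlinarith [Real.exp_pos (1 / 2 : ℝ)]
          rw [Helper923.HRho.rho_log h (h5.le.trans h6)]
          have h7 : Real.log (1 / (4 * θ)) < 1 / 2 := by
            rw [Real.log_lt_iff_lt_exp (by positivity)]
            exact h5
          linarith
      have h5 : (d : ℝ) < 2 := by
        by_contra hc
        push Not at hc
        nlinarith
      have h6 : d < 2 := by exact_mod_cast h5
      omega
    · have hr : 1 / 4 < Helper923.HRho.rho (1 / (4 * θ)) := by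
        have h5 : 1 / (4 * θ) ≤ 2 := by
          rw [div_le_iff₀ h4θ]
          linarith
        refine lt_of_lt_of_le ?_ (Helper923.HRho.rho_anti h5)
        rw [Helper923.HRho.rho_log (by norm_num) le_rfl]
        have := Real.log_two_lt_d9
        linarith
      have h5 : (d : ℝ) < 4 := by
        by_contra hc
        push Not at hc
        nlinarith
      have h6 : d < 4 := by exact_mod_cast h5
      have h7 := h3 h8
      rw [Nat.odd_iff] at h7
      have h10 : d ≠ 3 := by
        rintro rfl
        omega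
      omega

end Pool.Agent.Results.MP_18a8a6_lc.SearchBelowBurgess
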