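import Mathlib
import Pool.Agent.Run7.h440.ThmD

set_option autoImplicit false

/-! # Elements of index `exp (n ^ (1 - α + ε))` modulo every prime within `exp (n ^ α)` steps -/

namespace Pool.Agent.Results.MP_18a8a6_lc.SubexpEveryPrime

open Finset Turing

/-- `F` is computable within `K * exp (n ^ α)` steps: some function on bit strings computed by a
deterministic Turing machine (Mathlib's `TM2ComputableInTime`) which makes at most `K * exp (n ^ α)`
steps on the inputs of length `n` sends the binary digits of `p` to the code of the list `F p`. -/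
def SubexpTimeList (α : ℝ) (F : ℕ → List ℕ) : Prop :=
  ∃ (f : List Bool → List Bool)
    (M : TM2ComputableInTime (id : List Bool → List Bool) (id : List Bool → List Bool) f) (K : ℝ),
    (∀ n : ℕ, (M.time n : ℝ) ≤ K * Real.exp ((n : ℝ) ^ α)) ∧
      ∀ p : ℕ, f (Nat.bits p) = NPC.bits (F p)

/-- the residue class of `g` has index `d` modulo `p`, that is, order `(p - 1) / d`; for `d = 1` the
number `g` is a primitive root modulo `p` -/
def HasIndex (p g d : ℕ) : Prop := orderOf (g : ZMod p) * d = p - 1

open Classical in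
/-- For all `α` between `0` and `1` and every `ε > 0` there is a list `F p`, computable within
`K * exp (n ^ α)` steps, `n = size p` the number of binary digits of `p`, such that for every
sufficiently large prime `p` the list is not empty and there is `d ≤ exp (n ^ (1 - α + ε))` such
that all but a fraction `exp (- n ^ (α - ε))` of the entries of `F p` have index exactly `d`
modulo `p`. -/
theorem result (α ε : ℝ) (hα0 : 0 < α) (hα1 : α < 1) (hε : 0 < ε) :
    ∃ F : ℕ → List ℕ, SubexpTimeList α F ∧
      ∃ p₀ : ℕ, ∀ p : ℕ, p₀ ≤ p → p.Prime → 0 < (F p).length ∧ ∃ d : ℕ,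
        (d : ℝ) ≤ Real.exp ((p.size : ℝ) ^ (1 - α + ε)) ∧ d ∣ p - 1 ∧
        (#{i ∈ range (F p).length | ¬ HasIndex p ((F p).getD i 0) d} : ℝ) ≤
          (F p).length * Real.exp (-(p.size : ℝ) ^ (α - ε)) := by
  obtain ⟨F, hF, ⟨p₀, hp₀⟩, _⟩ := Run7.h440.theoremC hα0 hα1 hε
  refine ⟨F, hF, p₀, fun p hp hpp => ?_⟩
  obtain ⟨h1, d, h2, h3, h4⟩ := hp₀ p hp hpp
  refine ⟨h1, d, h2, h3, ?_⟩
  have h5 : (Real.exp ((p.size : ℝ) ^ (α - ε))) *
      (#{i ∈ range (F p).length | ¬ HasIndex p ((F p).getD i 0) d} : ℝ) ≤ (F p).length := by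
    simp only [HasIndex]
    convert h4
  rw [Real.exp_neg, ← div_eq_mul_inv, le_div_iff₀ (Real.exp_pos _), mul_comm]
  exact h5

end Pool.Agent.Results.MP_18a8a6_lc.SubexpEveryPrime
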