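import Mathlib
import Pool.Agent.Run7.h440.ThmD

set_option autoImplicit false

/-! # Primitive roots within `exp (n ^ α)` steps with `exp ((log x) ^ (1 - α + ε))` exceptions -/

namespace Pool.Agent.Results.MP_18a8a6_lc.SubexpExceptions

open Finset Turing

/-- `F` is computable within `K * exp (n ^ α)` steps: some function on bit strings computed by a
deterministic Turing machine (Mathlib's `TM2ComputableInTime`) which makes at most `K * exp (n ^ α)`
steps on the inputs of length `n` sends the binary digits of `p` to the code of the list `F p`. -/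
def SubexpTimeList (α : ℝ) (F : ℕ → List ℕ) : Prop :=
  ∃ (f : List Bool → List Bool)
    (M : TM2ComputableInTime (id : List Bool → List Bool) (id : List Bool → List Bool) f) (K : ℝ),
    (∀ n : ℕ, (M.time n : ℝ) ≤ K * Real.exp ((n : ℝ) ^ α)) ∧
      ∀ p : ℕ, f (Nat.bits p) = NPC.bits (F p)

/-- `g` is a primitive root modulo `p` -/
def IsPrimRoot (p g : ℕ) : Prop := orderOf (g : ZMod p) = p - 1

open Classical in
/-- the list `s` is good for `p` with parameter `γ`: it is not empty and all but a fraction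
`exp (- n ^ γ)` of its entries, `n = size p` the number of binary digits of `p`, are primitive
roots modulo `p` -/
def Good (γ : ℝ) (p : ℕ) (s : List ℕ) : Prop :=
  0 < s.length ∧ (#{i ∈ range s.length | ¬ IsPrimRoot p (s.getD i 0)} : ℝ) ≤
    s.length * Real.exp (-(p.size : ℝ) ^ γ)

open Classical in
/-- For all `α` between `0` and `1` and every `ε > 0` there is a list `F p`, computable within
`K * exp (n ^ α)` steps, such that for all but at most `exp ((log x) ^ (1 - α + ε))` of the primes
`p ≤ x`, `x` sufficiently large, all but a fraction `exp (- n ^ (α - ε))` of the entries of `F p`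
are primitive roots modulo `p`. -/
theorem result (α ε : ℝ) (hα0 : 0 < α) (hα1 : α < 1) (hε : 0 < ε) :
    ∃ F : ℕ → List ℕ, SubexpTimeList α F ∧ ∃ x₀ : ℕ, ∀ x : ℕ, x₀ ≤ x →
      (#{p ∈ range (x + 1) | p.Prime ∧ ¬ Good (α - ε) p (F p)} : ℝ) ≤
        Real.exp (Real.log x ^ (1 - α + ε)) := by
  obtain ⟨F, hF, _, x₀, hx₀⟩ := Run7.h440.theoremC hα0 hα1 hε
  refine ⟨F, hF, x₀, fun x hx => le_trans (Nat.cast_le.2 (card_le_card ?_)) (hx₀ x hx)⟩
  intro p hp
  rw [mem_filter] at hp ⊢
  refine ⟨hp.1, hp.2.1, fun h => hp.2.2 ⟨h.1, ?_⟩⟩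
  have h5 : (Real.exp ((p.size : ℝ) ^ (α - ε))) *
      (#{i ∈ range (F p).length | ¬ IsPrimRoot p ((F p).getD i 0)} : ℝ) ≤ (F p).length := by
    simp only [IsPrimRoot]
    convert h.2
  rw [Real.exp_neg, ← div_eq_mul_inv, le_div_iff₀ (Real.exp_pos _), mul_comm]
  exact h5

end Pool.Agent.Results.MP_18a8a6_lc.SubexpExceptions
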